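import Pool.Agent.E8helper4.FV.Stm

/-!
# FV A3: the symmetry `α ↦ -a / conj α`
-/

set_option autoImplicit false

open Complex MeasureTheory Metric Set Filter Topology ComplexConjugate


namespace Pool.Agent.E8helper44.FV

open Pool.Agent.E8helper4.FV

variable {a : ℝ} {ρ : ℝ → ℝ} {z : ℝ → ℂ}

/-- `dz/ds` -/
noncomputable def dz (ρ : ℝ → ℝ) (s : ℝ) : ℂ := (ρ s : ℂ) * exp ((s : ℂ) * I)

theorem conj_dz (s : ℝ) : conj (dz ρ s) = dX ρ s := by
  simp only [dz, dX, map_mul, conj_ofReal, ← exp_conj, conj_I]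
  congr 2
  ring

theorem conj_dX (s : ℝ) : conj (dX ρ s) = dz ρ s := by
  rw [← conj_dz, conj_conj]

theorem hz (h : Crv ρ z) (s : ℝ) : HasDerivAt z (dz ρ s) s := h.der s

theorem hX (h : Crv ρ z) (s : ℝ) : HasDerivAt (fun s => conj (z s)) (dX ρ s) s := by
  have := (hz h s).star
  rw [← conj_dz]
  exact this

theorem cont_dz (h : Crv ρ z) : Continuous (dz ρ) := by
  unfold dz
  have := h.cont
  fun_prop

theorem cont_dX (h : Crv ρ z) : Continuous (dX ρ) := by
  unfold dX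
  have := h.cont
  fun_prop

theorem cont_z (h : Crv ρ z) : Continuous z :=
  continuous_iff_continuousAt.2 fun s => (h.der s).continuousAt

theorem cont_E (h : Crv ρ z) (β : ℂ) : Continuous (E a z β) := by
  have := cont_z h
  unfold E
  fun_prop

theorem cont_M (h : Crv ρ z) (β : ℂ) : Continuous (M a z β) := by
  have := cont_z h
  unfold M
  fun_prop

theorem hE (h : Crv ρ z) (β : ℂ) (s : ℝ) :
    HasDerivAt (E a z β) (E a z β s * (β * dz ρ s - (a : ℂ) / β * dX ρ s)) s :=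
  (((hz h s).const_mul β).sub ((hX h s).const_mul ((a : ℂ) / β))).cexp

theorem hM (h : Crv ρ z) (β : ℂ) (s : ℝ) :
    HasDerivAt (M a z β) (dz ρ s + (a : ℂ) / β ^ 2 * dX ρ s) s :=
  (hz h s).add ((hX h s).const_mul ((a : ℂ) / β ^ 2))

theorem hY (h : Crv ρ z) (β : ℂ) (s : ℝ) :
    HasDerivAt (Y a ρ z β) (E a z (-β) s * dX ρ s) s := by
  have hc : Continuous (fun s => E a z (-β) s * dX ρ s) := (cont_E h _).mul (cont_dX h)
  exact (hc.integral_hasStrictDerivAt 0 s).hasDerivAt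

theorem cont_Y (h : Crv ρ z) (β : ℂ) : Continuous (Y a ρ z β) :=
  continuous_iff_continuousAt.2 fun s => (hY h β s).continuousAt

theorem EE (β : ℂ) (s : ℝ) : E a z β s * E a z (-β) s = 1 := by
  rw [E, E, ← exp_add, ← exp_zero]
  congr 1
  rw [div_neg]
  ring

theorem E_per (h : Crv ρ z) (β : ℂ) : E a z β (2 * Real.pi) = E a z β 0 := by
  have h0 := h.perz 0
  rw [zero_add] at h0
  rw [E, E, h0]

theorem M_per (h : Crv ρ z) (β : ℂ) : M a z β (2 * Real.pi) = M a z β 0 := by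
  have h0 := h.perz 0
  rw [zero_add] at h0
  rw [M, M, h0]

theorem z_per (h : Crv ρ z) : z (2 * Real.pi) = z 0 := by
  have h0 := h.perz 0
  rwa [zero_add] at h0

theorem conj_E (ha : 0 < a) {α : ℂ} (hα : α ≠ 0) (s : ℝ) :
    conj (E a z α s) = E a z (-(a : ℂ) / conj α) s := by
  have hc : conj α ≠ 0 := (map_ne_zero _).2 hα
  have ha' : (a : ℂ) ≠ 0 := by exact_mod_cast ha.ne'
  rw [E, E, ← exp_conj]
  congr 1
  simp only [map_sub, map_mul, map_div₀, conj_ofReal, conj_conj]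
  field_simp
  ring

theorem conj_E' (ha : 0 < a) {α : ℂ} (hα : α ≠ 0) (s : ℝ) :
    conj (E a z (-α) s) = E a z (-(-(a : ℂ) / conj α)) s := by
  rw [conj_E ha (neg_ne_zero.2 hα)]
  congr 1
  rw [map_neg, div_neg]

theorem conj_M (ha : 0 < a) {α : ℂ} (hα : α ≠ 0) (s : ℝ) :
    conj (M a z α s) = (-(a : ℂ) / conj α) ^ 2 / a * M a z (-(a : ℂ) / conj α) s := by
  have hc : conj α ≠ 0 := (map_ne_zero _).2 hα
  have ha' : (a : ℂ) ≠ 0 := by exact_mod_cast ha.ne'
  rw [M, M]
  simp only [map_add, map_mul, map_div₀, map_pow, conj_ofReal, conj_conj]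
  field_simp
  ring

theorem conj_int (f : ℝ → ℂ) (p q : ℝ) :
    conj (∫ s in p..q, f s) = ∫ s in p..q, conj (f s) := by
  simp only [intervalIntegral, map_sub, integral_conj]

/-- `conj Y_α`, in terms of `Y_β` -/
theorem conj_Y (h : Crv ρ z) (ha : 0 < a) {α : ℂ} (hα : α ≠ 0) (s : ℝ) :
    conj (Y a ρ z α s) = -(1 / (-(a : ℂ) / conj α)) *
      (E a z (-(-(a : ℂ) / conj α)) s - E a z (-(-(a : ℂ) / conj α)) 0) +
      (a : ℂ) / (-(a : ℂ) / conj α) ^ 2 * Y a ρ z (-(a : ℂ) / conj α) s := by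
  have hc : conj α ≠ 0 := (map_ne_zero _).2 hα
  have ha' : (a : ℂ) ≠ 0 := by exact_mod_cast ha.ne'
  have h1 : conj (Y a ρ z α s) = ∫ t in (0 : ℝ)..s, E a z (-(-(a : ℂ) / conj α)) t * dz ρ t := by
    rw [Y, conj_int]
    refine intervalIntegral.integral_congr fun t _ => ?_
    simp only [map_mul]
    rw [conj_E' ha hα, conj_dX]
  rw [h1]
  set β : ℂ := -(a : ℂ) / conj α with hβ
  have hβ0 : β ≠ 0 := div_ne_zero (neg_ne_zero.2 ha') hc
  have hd : ∀ t ∈ uIcc 0 s, HasDerivAt (fun t => -(1 / β) * E a z (-β) t +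
      (a : ℂ) / β ^ 2 * Y a ρ z β t) (E a z (-β) t * dz ρ t) t := by
    intro t _
    have := ((hE (a := a) h (-β) t).const_mul (-(1 / β))).add
      ((hY (a := a) h β t).const_mul ((a : ℂ) / β ^ 2))
    refine HasDerivAt.congr_deriv this ?_
    field_simp
    ring
  have hi : IntervalIntegrable (fun t => E a z (-β) t * dz ρ t) volume 0 s :=
    ((cont_E h _).mul (cont_dz h)).intervalIntegrable _ _
  rw [intervalIntegral.integral_eq_sub_of_hasDerivAt hd hi]
  have : Y a ρ z β 0 = 0 := by rw [Y, intervalIntegral.integral_same]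
  rw [this]
  ring

theorem part1 (hA0 : A0) (ha : 0 < a) (h : Crv ρ z) (hL : Lin a ρ z) {α : ℂ} (hα : α ≠ 0) :
    conj (Th a ρ z α) =
    (a : ℂ) ^ 2 / (-(a : ℂ) / conj α) ^ 4 * Th a ρ z (-(a : ℂ) / conj α) := by
  have hc : conj α ≠ 0 := (map_ne_zero _).2 hα
  have ha' : (a : ℂ) ≠ 0 := by exact_mod_cast ha.ne'
  have h1 : conj (Th a ρ z α) = ∫ s in (0 : ℝ)..(2 * Real.pi), E a z (-(a : ℂ) / conj α) s *
      (-(1 / (-(a : ℂ) / conj α)) *
      (E a z (-(-(a : ℂ) / conj α)) s - E a z (-(-(a : ℂ) / conj α)) 0) +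
      (a : ℂ) / (-(a : ℂ) / conj α) ^ 2 * Y a ρ z (-(a : ℂ) / conj α) s) * dz ρ s := by
    rw [Th, conj_int]
    refine intervalIntegral.integral_congr fun s _ => ?_
    simp only [map_mul]
    rw [conj_E ha hα, conj_dX, conj_Y h ha hα]
  rw [h1]
  set β : ℂ := -(a : ℂ) / conj α with hβ
  have hβ0 : β ≠ 0 := div_ne_zero (neg_ne_zero.2 ha') hc
  rw [Th, ← intervalIntegral.integral_const_mul, ← sub_eq_zero]
  have hcE := cont_E (a := a) h β
  have hcE' := cont_E (a := a) h (-β)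
  have hcY := cont_Y (a := a) h β
  have hcz := cont_dz h
  have hcX := cont_dX h
  rw [← intervalIntegral.integral_sub]
  rotate_left
  · apply Continuous.intervalIntegrable
    fun_prop
  · apply Continuous.intervalIntegrable
    fun_prop
  set c : ℂ := E a z (-β) 0 with hcdef
  have hd : ∀ s ∈ uIcc 0 (2 * Real.pi), HasDerivAt (fun s => -(1 / β) * z s +
      (a : ℂ) / β ^ 3 * (Y a ρ z β s * E a z β s - conj (z s)))
      (E a z β s * (-(1 / β) * (E a z (-β) s - c) + (a : ℂ) / β ^ 2 * Y a ρ z β s) * dz ρ s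
        - (a : ℂ) ^ 2 / β ^ 4 * (E a z β s * Y a ρ z β s * dX ρ s)
        - c / β * (E a z β s * dz ρ s)) s := by
    intro s _
    have := ((hz h s).const_mul (-(1 / β))).add ((((hY (a := a) h β s).mul
      (hE (a := a) h β s)).sub (hX h s)).const_mul ((a : ℂ) / β ^ 3))
    refine HasDerivAt.congr_deriv this ?_
    have h3 : E a z β s * E a z (-β) s = 1 := EE β s
    have h4 : E a z (-β) s = (E a z β s)⁻¹ := eq_inv_of_mul_eq_one_right h3
    have h5 : E a z β s ≠ 0 := exp_ne_zero _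
    rw [h4]
    field_simp
    ring
  have hL1 := hL β hβ0
  have h6 : ∀ s, E a z β s * (-(1 / β) * (E a z (-β) s - c) + (a : ℂ) / β ^ 2 * Y a ρ z β s)
      * dz ρ s - (a : ℂ) ^ 2 / β ^ 4 * (E a z β s * Y a ρ z β s * dX ρ s) =
      (E a z β s * (-(1 / β) * (E a z (-β) s - c) + (a : ℂ) / β ^ 2 * Y a ρ z β s) * dz ρ s
        - (a : ℂ) ^ 2 / β ^ 4 * (E a z β s * Y a ρ z β s * dX ρ s)
        - c / β * (E a z β s * dz ρ s)) + c / β * (E a z β s * dz ρ s) := fun s => by ring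
  refine (intervalIntegral.integral_congr (fun s _ => h6 s)).trans ?_
  rw [intervalIntegral.integral_add]
  rotate_left
  · apply Continuous.intervalIntegrable
    fun_prop
  · apply Continuous.intervalIntegrable
    fun_prop
  rw [intervalIntegral.integral_const_mul, intervalIntegral.integral_eq_sub_of_hasDerivAt hd]
  rotate_left
  · apply Continuous.intervalIntegrable
    fun_prop
  have hY0 : Y a ρ z β 0 = 0 := by rw [Y, intervalIntegral.integral_same]
  have hY1 : Y a ρ z β (2 * Real.pi) = 0 := (hA0 a ρ z ha h hL (-β) (neg_ne_zero.2 hβ0)).1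
  have hL2 : ∫ s in (0 : ℝ)..(2 * Real.pi), E a z β s * dz ρ s = 0 := hL1
  rw [hL2, hY0, hY1, z_per h]
  ring

theorem part2 (hA0 : A0) (ha : 0 < a) (h : Crv ρ z) (hL : Lin a ρ z)
    (hT : ∀ α : ℂ, α ≠ 0 → Th a ρ z α = 0) {α : ℂ} (hα : α ≠ 0) :
    conj (La a ρ z α) =
    (a : ℂ) / (-(a : ℂ) / conj α) ^ 2 * La a ρ z (-(a : ℂ) / conj α) := by
  have hc : conj α ≠ 0 := (map_ne_zero _).2 hα
  have ha' : (a : ℂ) ≠ 0 := by exact_mod_cast ha.ne'
  have h1 : conj (La a ρ z α) = ∫ s in (0 : ℝ)..(2 * Real.pi),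
      (-(a : ℂ) / conj α) ^ 2 / a * M a z (-(a : ℂ) / conj α) s *
      E a z (-(a : ℂ) / conj α) s *
      (-(1 / (-(a : ℂ) / conj α)) *
      (E a z (-(-(a : ℂ) / conj α)) s - E a z (-(-(a : ℂ) / conj α)) 0) +
      (a : ℂ) / (-(a : ℂ) / conj α) ^ 2 * Y a ρ z (-(a : ℂ) / conj α) s) * dz ρ s := by
    rw [La, conj_int]
    refine intervalIntegral.integral_congr fun s _ => ?_
    simp only [map_mul]
    rw [conj_E ha hα, conj_dX, conj_Y h ha hα, conj_M ha hα]
  rw [h1]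
  set β : ℂ := -(a : ℂ) / conj α with hβ
  have hβ0 : β ≠ 0 := div_ne_zero (neg_ne_zero.2 ha') hc
  rw [La, ← intervalIntegral.integral_const_mul, ← sub_eq_zero]
  have hcE := cont_E (a := a) h β
  have hcE' := cont_E (a := a) h (-β)
  have hcY := cont_Y (a := a) h β
  have hcM := cont_M (a := a) h β
  have hcz := cont_dz h
  have hcX := cont_dX h
  have hczz := cont_z h
  rw [← intervalIntegral.integral_sub]
  rotate_left
  · apply Continuous.intervalIntegrable
    fun_prop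
  · apply Continuous.intervalIntegrable
    fun_prop
  set c : ℂ := E a z (-β) 0 with hcdef
  have hd : ∀ s ∈ uIcc 0 (2 * Real.pi), HasDerivAt (fun s => β ^ 2 / a * (-(1 / (2 * β)) *
      (z s * z s) - (a : ℂ) / β ^ 3 * (z s * conj (z s)) + (a : ℂ) / β ^ 3 *
      (M a z β s * (Y a ρ z β s * E a z β s) - (a : ℂ) / (2 * β ^ 2) * (conj (z s) * conj (z s))
        - 1 / β * (Y a ρ z β s * E a z β s - conj (z s)))))
      (β ^ 2 / a * M a z β s * E a z β s *
        (-(1 / β) * (E a z (-β) s - c) + (a : ℂ) / β ^ 2 * Y a ρ z β s) * dz ρ s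
        - (a : ℂ) / β ^ 2 * (M a z β s * E a z β s * Y a ρ z β s * dX ρ s)
        - (β ^ 2 / a * (c / β) * (M a z β s * E a z β s * dz ρ s)
          - β ^ 2 / a * (2 * a ^ 2 / β ^ 5) * (E a z β s * Y a ρ z β s * dX ρ s))) s := by
    intro s _
    have hYE := (hY (a := a) h β s).mul (hE (a := a) h β s)
    have := (((((hz h s).mul (hz h s)).const_mul (-(1 / (2 * β)))).sub
      (((hz h s).mul (hX h s)).const_mul ((a : ℂ) / β ^ 3))).add
      (((((hM (a := a) h β s).mul hYE).sub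
        (((hX h s).mul (hX h s)).const_mul ((a : ℂ) / (2 * β ^ 2)))).sub
        ((hYE.sub (hX h s)).const_mul (1 / β))).const_mul ((a : ℂ) / β ^ 3))).const_mul
          (β ^ 2 / a)
    refine HasDerivAt.congr_deriv this ?_
    have h3 : E a z β s * E a z (-β) s = 1 := EE β s
    have h4 : E a z (-β) s = (E a z β s)⁻¹ := eq_inv_of_mul_eq_one_right h3
    have h5 : E a z β s ≠ 0 := exp_ne_zero _
    rw [h4]
    have hMs : M a z β s = z s + (a : ℂ) / β ^ 2 * conj (z s) := rfl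
    rw [hMs]
    simp only [Pi.mul_apply]
    field_simp
    ring
  have h6 : ∀ s, β ^ 2 / a * M a z β s * E a z β s *
        (-(1 / β) * (E a z (-β) s - c) + (a : ℂ) / β ^ 2 * Y a ρ z β s) * dz ρ s
        - (a : ℂ) / β ^ 2 * (M a z β s * E a z β s * Y a ρ z β s * dX ρ s) =
      (β ^ 2 / a * M a z β s * E a z β s *
        (-(1 / β) * (E a z (-β) s - c) + (a : ℂ) / β ^ 2 * Y a ρ z β s) * dz ρ s
        - (a : ℂ) / β ^ 2 * (M a z β s * E a z β s * Y a ρ z β s * dX ρ s)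
        - (β ^ 2 / a * (c / β) * (M a z β s * E a z β s * dz ρ s)
          - β ^ 2 / a * (2 * a ^ 2 / β ^ 5) * (E a z β s * Y a ρ z β s * dX ρ s)))
      + (β ^ 2 / a * (c / β) * (M a z β s * E a z β s * dz ρ s)
          - β ^ 2 / a * (2 * a ^ 2 / β ^ 5) * (E a z β s * Y a ρ z β s * dX ρ s)) :=
    fun s => by ring
  refine (intervalIntegral.integral_congr (fun s _ => h6 s)).trans ?_
  rw [intervalIntegral.integral_add]
  rotate_left
  · apply Continuous.intervalIntegrable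
    fun_prop
  · apply Continuous.intervalIntegrable
    fun_prop
  rw [intervalIntegral.integral_eq_sub_of_hasDerivAt hd]
  rotate_left
  · apply Continuous.intervalIntegrable
    fun_prop
  rw [intervalIntegral.integral_sub]
  rotate_left
  · apply Continuous.intervalIntegrable
    fun_prop
  · apply Continuous.intervalIntegrable
    fun_prop
  rw [intervalIntegral.integral_const_mul, intervalIntegral.integral_const_mul]
  have hY0 : Y a ρ z β 0 = 0 := by rw [Y, intervalIntegral.integral_same]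
  have hY1 : Y a ρ z β (2 * Real.pi) = 0 := (hA0 a ρ z ha h hL (-β) (neg_ne_zero.2 hβ0)).1
  have hL2 : ∫ s in (0 : ℝ)..(2 * Real.pi), M a z β s * E a z β s * dz ρ s = 0 :=
    (hA0 a ρ z ha h hL β hβ0).2.2
  have hL3 : ∫ s in (0 : ℝ)..(2 * Real.pi), E a z β s * Y a ρ z β s * dX ρ s = 0 := hT β hβ0
  rw [hL2, hL3, hY0, hY1, z_per h]
  ring

theorem a3 : A3 := fun hA0 _ _ _ ha h hL =>
  ⟨fun _ hα => part1 hA0 ha h hL hα, fun hT _ hα => part2 hA0 ha h hL hT hα⟩

end Pool.Agent.E8helper44.FV
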